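import Pool.Agent.H83M.CVX
import Pool.Agent.H83M.AREA
import Pool.Agent.H83M.GDF
import Pool.Agent.H83M.EDGE
import Pool.Agent.H83M.GAB
import Pool.Agent.H83M.HALF
import Pool.Agent.H83M.PW
import Pool.Agent.H83M.SUP
import Pool.Agent.H83M.SUP2
import Pool.Agent.H83M.REF3
import Pool.Agent.H83M.ONE
import Pool.Agent.H83M.ONE2
import Pool.Agent.H83M.RED2
import Pool.Agent.H83M.LIN
import Pool.Agent.H83M.LIN1
import Pool.Agent.H83M.MAX2
import Pool.Agent.H83M.GEN2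

/-!
# MP_3d0d30_nt: the critical order of Q2

`Z(t) = |ζ(1/2 + it)|`, `M_k(T) = ∫_0^T Z^{2k}`, `L(T) = log T / log log T`; the pair `(k, T)` is good if
`M_k(T) ≤ T (log T)^{k²}` (the inequality of Q2). All results are unconditional.

(1) Pointwise bound by the moments, uniform in the order: for large `T`, `0 ≤ t ≤ T` and all real `p ≥ 1`,
`Z(t)^p ≤ C^p log T (1 + ∫_0^{2T} Z^p)`.
(2) If `(j, 2T)` is good, `1 ≤ j ≤ L(T)`, then `Z ≤ C T^{1/(2j)} (log T)^{j/2 + 1/(2j)}` on `[0, T]`.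
(3) Reflection of the orders: if `(j, T)` and `(j, 2T)` are good, `T` is large, then `(k, T)` is good for all
`k ≥ j` with `jk ≥ L(T) + 1 + C j / log log T`.
(4) For large `T` only the orders `k ≤ √L(T) + C / log log T` matter for Q2, and the ONE order
`√L(T) + C / log log T` decides all larger ones; also the one order `√(c L(T))` for any fixed `c > 1`.
(5) The range `k ≥ ε L(T)` (all `ε > 0`), and also the one order `ε L(T)`, is the Lindelöf hypothesis.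
(6) For every scale `φ` which is at least `√(log t log log t)`: the inequality for `k ≥ C φ(T)/log log T` (some `C`), and
also for the one order `C φ(T)/log log T`, is the bound `log Z(t) = O(φ(t))`.
(7) Q2 for large `T`, even only for the one order `√L(T)`, gives `Z(t) ≤ C exp(√(log t log log t))`.

Proof. (1): the mean value property of `|F|^p` on a disc of radius `1 / log T` around `1/2 + it`,
`F(s) = (s - 1) ζ(s) exp((s - 1/2 - it)²) / (1 + t)`, and Gabriel's convexity theorem for the integrals of `|F|^p` on the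
vertical lines (constants `C^p`, uniform in `p`). (2)-(7) follow by optimising the order.
-/

set_option autoImplicit false

namespace Pool.Agent.Results.MP_3d0d30_nt.CriticalOrders

open Complex MeasureTheory Set Filter

/-- `|ζ(1/2 + it)|` -/
noncomputable def Z (t : ℝ) : ℝ := ‖riemannZeta (1 / 2 + t * I)‖

/-- `M_k(T) = ∫_0^T |ζ(1/2 + it)|^{2k} dt` -/
noncomputable def M (k T : ℝ) : ℝ := ∫ t in (0:ℝ)..T, Z t ^ (2 * k)

/-- the inequality of Q2 for the pair `(k, T)` -/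
def Good (k T : ℝ) : Prop := M k T ≤ T * Real.log T ^ (k ^ 2)

/-- `log T / log log T` -/
noncomputable def L (T : ℝ) : ℝ := Real.log T / Real.log (Real.log T)

/-- On some `[t₁, ∞)` the function `φ` is nondecreasing, `φ(2t) ≤ B φ(t)` and `φ(t) ≥ √(log t log log t)`. -/
def Scale (φ : ℝ → ℝ) : Prop := ∃ B t₁ : ℝ, MonotoneOn φ (Ici t₁) ∧
  (∀ t, t₁ ≤ t → φ (2 * t) ≤ B * φ t) ∧
  ∀ t, t₁ ≤ t → Real.sqrt (Real.log t * Real.log (Real.log t)) ≤ φ t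

/-- the smallest scale -/
theorem scale_min : Scale fun t => Real.sqrt (Real.log t * Real.log (Real.log t)) := by
  refine ⟨2, Real.exp (Real.exp 1), ?_, ?_, fun t _ => le_rfl⟩
  · intro x hx y hy hxy
    obtain ⟨h0, h1, h2⟩ := Pool.Agent.H83M.CRI.big hx
    have e1 : Real.log x ≤ Real.log y := Real.log_le_log h0 hxy
    have e2 : Real.log (Real.log x) ≤ Real.log (Real.log y) := Real.log_le_log (by linarith) e1
    exact Real.sqrt_le_sqrt (mul_le_mul e1 e2 (by linarith) (by linarith))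
  · intro t ht
    obtain ⟨h0, h1, h2⟩ := Pool.Agent.H83M.CRI.big ht
    have hl2 : Real.log 2 ≤ 1 := by
      have := Real.log_two_lt_d9
      linarith
    have e1 : Real.log (2 * t) = Real.log 2 + Real.log t := Real.log_mul (by norm_num) h0.ne'
    have e2 : Real.log (2 * t) ≤ 2 * Real.log t := by linarith
    have e3 : Real.log t ≤ Real.log (2 * t) := Real.log_le_log h0 (by linarith)
    have e4 : Real.log (2 * Real.log t) = Real.log 2 + Real.log (Real.log t) :=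
      Real.log_mul (by norm_num) (by linarith)
    have e5 : Real.log (Real.log (2 * t)) ≤ 2 * Real.log (Real.log t) := by
      have e6 : Real.log (Real.log (2 * t)) ≤ Real.log (2 * Real.log t) :=
        Real.log_le_log (by linarith) e2
      linarith
    have e7 : 0 ≤ Real.log (Real.log (2 * t)) := Real.log_nonneg (by linarith)
    have e8 : Real.log (2 * t) * Real.log (Real.log (2 * t)) ≤
        2 ^ 2 * (Real.log t * Real.log (Real.log t)) := by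
      calc Real.log (2 * t) * Real.log (Real.log (2 * t))
          ≤ (2 * Real.log t) * (2 * Real.log (Real.log t)) :=
            mul_le_mul e2 e5 e7 (by linarith)
        _ = 2 ^ 2 * (Real.log t * Real.log (Real.log t)) := by ring
    calc Real.sqrt (Real.log (2 * t) * Real.log (Real.log (2 * t)))
        ≤ Real.sqrt (2 ^ 2 * (Real.log t * Real.log (Real.log t))) := Real.sqrt_le_sqrt e8
      _ = 2 * Real.sqrt (Real.log t * Real.log (Real.log t)) := by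
          rw [Real.sqrt_mul (by norm_num), Real.sqrt_sq (by norm_num)]

theorem result :
    -- (1) the pointwise bound by the moments
    (∃ C : ℝ, 3 ≤ C ∧ ∀ T t p : ℝ, C ≤ T → 0 ≤ t → t ≤ T → 1 ≤ p →
      Z t ^ p ≤ C ^ p * Real.log T * (1 + ∫ y in (0:ℝ)..(2 * T), Z y ^ p)) ∧
    -- (2) the maximum from one good pair
    (∃ C T₀ : ℝ, 1 ≤ C ∧ ∀ T j : ℝ, T₀ ≤ T → 1 ≤ j → Real.log T ^ j ≤ T → Good j (2 * T) →
      ∀ t : ℝ, 0 ≤ t → t ≤ T →
        Z t ≤ C * T ^ (1 / (2 * j)) * Real.log T ^ (j / 2 + 1 / (2 * j))) ∧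
    -- (3) reflection of the orders
    (∃ C T₀ : ℝ, ∀ T j k : ℝ, T₀ ≤ T → 1 ≤ j → Good j T → Good j (2 * T) → j ≤ k →
      Real.log T + Real.log (Real.log T) + C * j ≤ j * k * Real.log (Real.log T) → Good k T) ∧
    -- (4) the critical order
    (∃ C₀ : ℝ, ∀ C : ℝ, C₀ ≤ C →
      ((∃ T₀ : ℝ, ∀ T k : ℝ, T₀ ≤ T → 2 ≤ k → Good k T) ↔
        ∃ T₀ : ℝ, ∀ T k : ℝ, T₀ ≤ T → 2 ≤ k →
          k ≤ Real.sqrt (L T) + C / Real.log (Real.log T) → Good k T) ∧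
      ((∃ T₀ : ℝ, ∀ T : ℝ, T₀ ≤ T → Good (Real.sqrt (L T) + C / Real.log (Real.log T)) T) ↔
        ∃ T₀ : ℝ, ∀ T k : ℝ, T₀ ≤ T →
          Real.sqrt (L T) + C / Real.log (Real.log T) ≤ k → Good k T)) ∧
    (∀ c : ℝ, 1 < c →
      ((∃ T₀ : ℝ, ∀ T : ℝ, T₀ ≤ T → Good (Real.sqrt (c * L T)) T) ↔
        ∃ T₀ : ℝ, ∀ T k : ℝ, T₀ ≤ T → 2 ≤ k → T ^ c ≤ Real.log T ^ (k ^ 2) → Good k T)) ∧
    -- (5) the Lindelöf hypothesis
    ((∀ ε : ℝ, 0 < ε → ∃ t₀ : ℝ, ∀ t : ℝ, t₀ ≤ t → Z t ≤ t ^ ε) ↔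
      ∀ ε : ℝ, 0 < ε → ∃ T₀ : ℝ, ∀ T k : ℝ, T₀ ≤ T → 2 ≤ k → T ^ ε ≤ Real.log T ^ k → Good k T) ∧
    ((∀ ε : ℝ, 0 < ε → ∃ t₀ : ℝ, ∀ t : ℝ, t₀ ≤ t → Z t ≤ t ^ ε) ↔
      ∀ ε : ℝ, 0 < ε → ∃ T₀ : ℝ, ∀ T : ℝ, T₀ ≤ T → Good (ε * L T) T) ∧
    -- (6) all scales
    Scale (fun t => Real.sqrt (Real.log t * Real.log (Real.log t))) ∧
    (∀ φ : ℝ → ℝ, Scale φ →
      ((∃ A t₀ : ℝ, ∀ t : ℝ, t₀ ≤ t → Z t ≤ Real.exp (A * φ t)) ↔
        ∃ C T₀ : ℝ, ∀ T k : ℝ, T₀ ≤ T → 2 ≤ k → C * φ T ≤ k * Real.log (Real.log T) →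
          Good k T) ∧
      ((∃ A t₀ : ℝ, ∀ t : ℝ, t₀ ≤ t → Z t ≤ Real.exp (A * φ t)) ↔
        ∃ C T₀ : ℝ, 0 < C ∧ ∀ T : ℝ, T₀ ≤ T → Good (C * φ T / Real.log (Real.log T)) T)) ∧
    -- (7) the maximum
    ((∃ T₀ : ℝ, ∀ T : ℝ, T₀ ≤ T → Good (Real.sqrt (L T)) T) → ∃ C t₀ : ℝ, ∀ t : ℝ, t₀ ≤ t →
      Z t ≤ C * Real.exp (Real.sqrt (Real.log t * Real.log (Real.log t)))) := by
  have hpw : H83M.S_PW := H83M.t_PW H83M.t_AREA H83M.t_GDF (H83M.t_GAB H83M.t_GDF H83M.t_EDGE) H83M.t_HALF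
  have hsup : H83M.S_SUP := H83M.t_SUP hpw
  have hsup2 : H83M.S_SUP2 := H83M.t_SUP2 hpw
  have hcvx : H83M.S_CVX := H83M.t_CVX
  have hone : H83M.S_ONE2 := H83M.t_ONE2 hsup2
  have h4 : ∃ C₀ : ℝ, ∀ C : ℝ, C₀ ≤ C →
      ((∃ T₀ : ℝ, ∀ T k : ℝ, T₀ ≤ T → 2 ≤ k → Good k T) ↔
        ∃ T₀ : ℝ, ∀ T k : ℝ, T₀ ≤ T → 2 ≤ k →
          k ≤ Real.sqrt (L T) + C / Real.log (Real.log T) → Good k T) ∧
      ((∃ T₀ : ℝ, ∀ T : ℝ, T₀ ≤ T → Good (Real.sqrt (L T) + C / Real.log (Real.log T)) T) ↔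
        ∃ T₀ : ℝ, ∀ T k : ℝ, T₀ ≤ T →
          Real.sqrt (L T) + C / Real.log (Real.log T) ≤ k → Good k T) := by
    obtain ⟨C₁, h1⟩ := hone
    obtain ⟨C₂, h2⟩ := H83M.t_RED2 ⟨C₁, h1⟩
    exact ⟨max C₁ C₂, fun C hC => ⟨h2 C ((le_max_right _ _).trans hC),
      h1 C ((le_max_left _ _).trans hC)⟩⟩
  refine ⟨hpw, hsup2, H83M.t_REF3 hsup2 hcvx, h4, fun c hc => H83M.t_ONE hsup c hc,
    H83M.t_LIN hsup, H83M.t_LIN1 hsup, scale_min, ?_, H83M.t_MAX2 hsup2⟩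
  rintro φ ⟨B, t₁, h1, h2, h3⟩
  exact ⟨H83M.t_GEN hsup hcvx φ B t₁ h1 h2 h3, H83M.t_GEN2 hsup hcvx φ B t₁ h1 h2 h3⟩

end Pool.Agent.Results.MP_3d0d30_nt.CriticalOrders
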