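import Pool.Agent.H83M.AREA
import Pool.Agent.H83M.GDF
import Pool.Agent.H83M.EDGE
import Pool.Agent.H83M.GAB
import Pool.Agent.H83M.HALF
import Pool.Agent.H83M.PW
import Pool.Agent.H83P.UB
import Pool.Agent.H83P.P1x
import Pool.Agent.H83P.P2
import Pool.Agent.H83P.P3
import Pool.Agent.H83P.P4
import Pool.Agent.H83P.P5A
import Pool.Agent.H83P.P5B
import Pool.Agent.H83P.P6
import Pool.Agent.H83P.P7

/-!
# MP_3d0d30_nt: the profile of the moments at the critical scale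

`Z(t) = |ζ(1/2 + it)|`, `M_k(T) = ∫_0^T Z^{2k}`, `L(T) = log T / log log T`, `s(T) = √(log T log log T)`. The orders
`k = x √L(T)`, `x > 0` fixed, are the critical ones for Q2: `T (log T)^{k²} = T^{1 + x²}`. We write `Λ(x) ≤ λ` (`Profile x λ`) for
`M_{x√L(T)}(T) ≤ T^{λ + o(1)}` and `m* ≤ m` (`MaxBound m`) for `Z(t) ≤ exp((m + o(1)) s(t))`. All results are
unconditional.

(1) `Λ(x) ≤ λ` implies `m* ≤ λ/(2x)` and `Λ(y) ≤ λ y/x` for all `y ≥ x`: the function `Λ(x)/x` is nonincreasing.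
(2) `Λ` is convex.
(3) `m* ≤ m` iff `Λ(x) ≤ 1 + 2mx` for all `x > 0`, iff for all `ε > 0` there is `x > 0` with `Λ(x) ≤ 2(m + ε)x`. So
`m* = inf Λ(x)/(2x) = lim Λ(x)/(2x)`; `Λ` is finite at one point iff it is finite everywhere iff `m*` is finite.
(4) The weak form of Q2, `M_k(T) ≤ T^{1+ε} (log T)^{k²}` for all `k ≥ 2`, `T ≥ T₀(ε)`, is equivalent to `Λ(x) ≤ 1 + x²` for
`0 < x ≤ 1`; it implies `m* ≤ 1` and the smaller bound `Λ(y) ≤ 2y` for `y ≥ 1` (`2y ≤ 1 + y²`).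
(5) The `N` inequalities `Λ(i/N) ≤ 1 + (i/N)²`, `1 ≤ i ≤ N`, imply `M_k(T) ≤ T^{1 + 1/(4N²) + ε} (log T)^{k²}` for all
`k ≥ 2`, `T ≥ T₀(ε)`. In particular the single order `√L(T)` gives `M_k(T) ≤ T^{5/4 + ε} (log T)^{k²}` for all `k ≥ 2`.
-/

set_option autoImplicit false

namespace Pool.Agent.Results.MP_3d0d30_nt.MomentProfile

open Complex MeasureTheory Set Filter

/-- `|ζ(1/2 + it)|` -/
noncomputable def Z (t : ℝ) : ℝ := ‖riemannZeta (1 / 2 + t * I)‖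

/-- `M_k(T) = ∫_0^T |ζ(1/2 + it)|^{2k} dt` -/
noncomputable def M (k T : ℝ) : ℝ := ∫ t in (0:ℝ)..T, Z t ^ (2 * k)

/-- the inequality of Q2 for the pair `(k, T)` -/
def Good (k T : ℝ) : Prop := M k T ≤ T * Real.log T ^ (k ^ 2)

/-- `log T / log log T` -/
noncomputable def L (T : ℝ) : ℝ := Real.log T / Real.log (Real.log T)

/-- `√(log T log log T)` -/
noncomputable def s (T : ℝ) : ℝ := Real.sqrt (Real.log T * Real.log (Real.log T))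

/-- `Λ(x) ≤ λ`: `M_{x√L(T)}(T) ≤ T^{λ + o(1)}` -/
def Profile (x lam : ℝ) : Prop := ∀ ε : ℝ, 0 < ε → ∃ T₀ : ℝ, ∀ T : ℝ, T₀ ≤ T →
  M (x * Real.sqrt (L T)) T ≤ T ^ (lam + ε)

/-- `|ζ(1/2 + it)| ≤ exp((m + o(1)) √(log t log log t))` -/
def MaxBound (m : ℝ) : Prop := ∀ ε : ℝ, 0 < ε → ∃ t₀ : ℝ, ∀ t : ℝ, t₀ ≤ t →
  Z t ≤ Real.exp ((m + ε) * s t)

/-- Q2 for large `T` up to the factor `T^ε` -/
def WeakQ2 : Prop := ∀ ε : ℝ, 0 < ε → ∃ T₀ : ℝ, ∀ T k : ℝ, T₀ ≤ T → 2 ≤ k →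
  M k T ≤ T ^ (1 + ε) * Real.log T ^ (k ^ 2)

/-- `MaxBound` from its values for larger constants -/
theorem max_of {m : ℝ} (h : ∀ ε : ℝ, 0 < ε → MaxBound (m + ε)) : MaxBound m := by
  intro ε hε
  obtain ⟨t₀, ht₀⟩ := h (ε / 2) (by positivity) (ε / 2) (by positivity)
  refine ⟨t₀, fun t ht => (ht₀ t ht).trans (le_of_eq ?_)⟩
  congr 2
  ring

/-- monotonicity in the constant -/
theorem max_mono {m m' : ℝ} (hm : m ≤ m') (h : MaxBound m) : MaxBound m' := by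
  intro ε hε
  obtain ⟨t₀, ht₀⟩ := h ε hε
  refine ⟨t₀, fun t ht => (ht₀ t ht).trans (Real.exp_le_exp.2 ?_)⟩
  exact mul_le_mul_of_nonneg_right (by linarith) (Real.sqrt_nonneg _)

/-- Q2 for large `T` implies the weak form -/
theorem weak_of (h : ∃ T₀ : ℝ, ∀ T k : ℝ, T₀ ≤ T → 2 ≤ k → Good k T) : WeakQ2 := by
  obtain ⟨T₀, hT₀⟩ := h
  intro ε hε
  refine ⟨max T₀ 1, fun T k hT hk => (hT₀ T k ((le_max_left _ _).trans hT) hk).trans ?_⟩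
  have h1 : 1 ≤ T := (le_max_right _ _).trans hT
  refine mul_le_mul_of_nonneg_right ?_ (Real.rpow_nonneg (Real.log_nonneg h1) _)
  calc T = T ^ (1:ℝ) := (Real.rpow_one T).symm
    _ ≤ T ^ (1 + ε) := Real.rpow_le_rpow_of_exponent_le h1 (by linarith)

theorem result :
    -- (1) from one order to the maximum and to all larger orders
    (∀ x lam : ℝ, 0 < x → 0 ≤ lam → Profile x lam →
      MaxBound (lam / (2 * x)) ∧ ∀ y : ℝ, x ≤ y → Profile y (lam * y / x)) ∧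
    -- (2) convexity
    (∀ x y lam mu θ : ℝ, 0 < x → 0 < y → 0 < θ → θ < 1 → Profile x lam → Profile y mu →
      Profile (θ * x + (1 - θ) * y) (θ * lam + (1 - θ) * mu)) ∧
    -- (3) duality with the maximum
    (∀ m : ℝ, 0 ≤ m → (MaxBound m ↔ ∀ x : ℝ, 0 < x → Profile x (1 + 2 * m * x))) ∧
    (∀ m : ℝ, 0 ≤ m → (MaxBound m ↔
      ∀ ε : ℝ, 0 < ε → ∃ x : ℝ, 0 < x ∧ Profile x (2 * (m + ε) * x))) ∧
    ((∃ m : ℝ, 0 ≤ m ∧ MaxBound m) ↔ ∃ x lam : ℝ, 0 < x ∧ 0 ≤ lam ∧ Profile x lam) ∧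
    ((∃ m : ℝ, 0 ≤ m ∧ MaxBound m) ↔ ∀ x : ℝ, 0 < x → ∃ lam : ℝ, 0 ≤ lam ∧ Profile x lam) ∧
    -- (4) the weak form of Q2
    ((∃ T₀ : ℝ, ∀ T k : ℝ, T₀ ≤ T → 2 ≤ k → Good k T) → WeakQ2) ∧
    (WeakQ2 ↔ ∀ x : ℝ, 0 < x → x ≤ 1 → Profile x (1 + x ^ 2)) ∧
    (WeakQ2 → MaxBound 1 ∧ ∀ y : ℝ, 1 ≤ y → Profile y (2 * y)) ∧
    -- (5) finitely many orders
    (∀ N : ℕ, 1 ≤ N → (∀ i : ℕ, 1 ≤ i → i ≤ N → Profile ((i : ℝ) / N) (1 + ((i : ℝ) / N) ^ 2)) →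
      ∀ ε : ℝ, 0 < ε → ∃ T₀ : ℝ, ∀ T k : ℝ, T₀ ≤ T → 2 ≤ k →
        M k T ≤ T ^ (1 + 1 / (4 * (N : ℝ) ^ 2) + ε) * Real.log T ^ (k ^ 2)) := by
  have hpw : H83M.S_PW := H83M.t_PW H83M.t_AREA H83M.t_GDF (H83M.t_GAB H83M.t_GDF H83M.t_EDGE) H83M.t_HALF
  have hub : H83P.S_UB := H83P.t_UB
  have h1 : H83P.S_P1 := H83P.t_P1x hpw
  have h2 : H83P.S_P2 := H83P.t_P2 hub
  have h3 : H83P.S_P3 := H83P.t_P3 h1 hub
  -- the pieces for the definitions of this file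
  have p1 : ∀ x lam : ℝ, 0 < x → 0 ≤ lam → Profile x lam → MaxBound (lam / (2 * x)) := h1
  have p2 : ∀ x m : ℝ, 0 < x → 0 ≤ m → MaxBound m → Profile x (1 + 2 * m * x) := h2
  have p3 : ∀ x y lam : ℝ, 0 < x → x ≤ y → 0 ≤ lam → Profile x lam → Profile y (lam * y / x) := h3
  have p5a : MaxBound 1 → Profile 1 2 → ∀ ε : ℝ, 0 < ε → ∃ T₀ : ℝ, ∀ T k : ℝ, T₀ ≤ T →
    Real.sqrt (L T) ≤ k → M k T ≤ T ^ (1 + ε) * Real.log T ^ (k ^ 2) := H83P.t_P5A hub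
  have p5b : (∀ x : ℝ, 0 < x → x ≤ 1 → Profile x (1 + x ^ 2)) → ∀ ε : ℝ, 0 < ε → ∃ T₀ : ℝ,
    ∀ T k : ℝ, T₀ ≤ T → 0 ≤ k → k ≤ Real.sqrt (L T) →
      M k T ≤ T ^ (1 + ε) * Real.log T ^ (k ^ 2) := H83P.t_P5B
  have p7 : ∀ N : ℕ, 1 ≤ N →
      (∀ i : ℕ, 1 ≤ i → i ≤ N → Profile ((i : ℝ) / N) (1 + ((i : ℝ) / N) ^ 2)) →
      ∀ ε : ℝ, 0 < ε → ∃ T₀ : ℝ, ∀ T k : ℝ, T₀ ≤ T → 0 ≤ k → k ≤ Real.sqrt (L T) →
        M k T ≤ T ^ (1 + 1 / (4 * (N : ℝ) ^ 2) + ε) * Real.log T ^ (k ^ 2) := H83P.t_P7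
  have p6 : WeakQ2 → ∀ x : ℝ, 0 < x → Profile x (1 + x ^ 2) := H83P.t_P6
  have q1 : ∀ m : ℝ, 0 ≤ m → (∀ x : ℝ, 0 < x → Profile x (1 + 2 * m * x)) →
      ∀ ε : ℝ, 0 < ε → ∃ x : ℝ, 0 < x ∧ Profile x (2 * (m + ε) * x) := by
    intro m hm h ε hε
    refine ⟨1 / (2 * ε), by positivity, ?_⟩
    have e : 2 * (m + ε) * (1 / (2 * ε)) = 1 + 2 * m * (1 / (2 * ε)) := by
      field_simp
      ring
    rw [e]
    exact h _ (by positivity)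
  have q2 : ∀ m : ℝ, 0 ≤ m → (∀ ε : ℝ, 0 < ε → ∃ x : ℝ, 0 < x ∧ Profile x (2 * (m + ε) * x)) →
      MaxBound m := by
    intro m hm h
    refine max_of fun ε hε => ?_
    obtain ⟨x, hx, hp⟩ := h ε hε
    have h4 := p1 x _ hx (by positivity) hp
    have e : 2 * (m + ε) * x / (2 * x) = m + ε := by
      field_simp
    rwa [e] at h4
  have h12 : WeakQ2 → Profile 1 2 := by
    intro hw
    have h4 := p6 hw 1 one_pos
    have e : (1:ℝ) + 1 ^ 2 = 2 := by norm_num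
    rwa [e] at h4
  have hb1 : Profile 1 2 → MaxBound 1 := by
    intro h4
    have h5 := p1 1 2 one_pos (by norm_num) h4
    have e : (2:ℝ) / (2 * 1) = 1 := by norm_num
    rwa [e] at h5
  refine ⟨fun x lam hx hl h => ⟨p1 x lam hx hl h, fun y hy => p3 x y lam hx hy hl h⟩, H83P.t_P4,
    fun m hm => ⟨fun h x hx => p2 x m hx hm h, fun h => q2 m hm (q1 m hm h)⟩,
    fun m hm => ⟨fun h => q1 m hm fun x hx => p2 x m hx hm h, q2 m hm⟩, ?_, ?_, weak_of, ?_, ?_, ?_⟩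
  · constructor
    · rintro ⟨m, hm, h⟩
      exact ⟨1, 1 + 2 * m * 1, one_pos, by positivity, p2 1 m one_pos hm h⟩
    · rintro ⟨x, lam, hx, hl, h⟩
      exact ⟨lam / (2 * x), by positivity, p1 x lam hx hl h⟩
  · constructor
    · rintro ⟨m, hm, h⟩ x hx
      exact ⟨1 + 2 * m * x, by positivity, p2 x m hx hm h⟩
    · intro h
      obtain ⟨lam, hl, h4⟩ := h 1 one_pos
      exact ⟨lam / (2 * 1), by positivity, p1 1 lam one_pos hl h4⟩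
  · constructor
    · exact fun hw x hx _ => p6 hw x hx
    · intro h ε hε
      have h4 : Profile 1 2 := by
        have h5 := h 1 one_pos le_rfl
        have e : (1:ℝ) + 1 ^ 2 = 2 := by norm_num
        rwa [e] at h5
      obtain ⟨T₁, hT₁⟩ := p5a (hb1 h4) h4 ε hε
      obtain ⟨T₂, hT₂⟩ := p5b h ε hε
      refine ⟨max T₁ T₂, fun T k hT hk => ?_⟩
      rcases le_total k (Real.sqrt (L T)) with hc | hc
      · exact hT₂ T k ((le_max_right _ _).trans hT) (by linarith) hc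
      · exact hT₁ T k ((le_max_left _ _).trans hT) hc
  · intro hw
    refine ⟨hb1 (h12 hw), fun y hy => ?_⟩
    have h4 := p3 1 y 2 one_pos hy (by norm_num) (h12 hw)
    rwa [div_one] at h4
  · intro N hN h ε hε
    have hN0 : (0 : ℝ) < N := by exact_mod_cast hN
    have h4 : Profile 1 2 := by
      have h5 := h N hN le_rfl
      have e : (1:ℝ) + ((N : ℝ) / N) ^ 2 = 2 := by
        rw [div_self hN0.ne']
        norm_num
      rwa [e, div_self hN0.ne'] at h5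
    obtain ⟨T₁, hT₁⟩ := p5a (hb1 h4) h4 ε hε
    obtain ⟨T₂, hT₂⟩ := p7 N hN h ε hε
    refine ⟨max (max T₁ T₂) 1, fun T k hT hk => ?_⟩
    have hTa : T₁ ≤ T := (le_max_left _ _).trans ((le_max_left _ _).trans hT)
    have hTb : T₂ ≤ T := (le_max_right _ _).trans ((le_max_left _ _).trans hT)
    have h1T : 1 ≤ T := (le_max_right _ _).trans hT
    rcases le_total k (Real.sqrt (L T)) with hc | hc
    · exact hT₂ T k hTb (by linarith) hc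
    · refine (hT₁ T k hTa hc).trans ?_
      refine mul_le_mul_of_nonneg_right ?_ (Real.rpow_nonneg (Real.log_nonneg h1T) _)
      apply Real.rpow_le_rpow_of_exponent_le h1T
      have : 0 ≤ 1 / (4 * (N : ℝ) ^ 2) := by positivity
      linarith

end Pool.Agent.Results.MP_3d0d30_nt.MomentProfile
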